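import Pool.Agent.Helper56.UN.St

/-!
# Project UN, module CC
-/

set_option autoImplicit false

open Set Filter Topology
open scoped ComplexConjugate

noncomputable section

namespace Pool.Agent.Helper27.UN

open Pool.Agent.Helper56.UN Pool.Agent.Helper71.UN
open Pool.Agent.Helper56.FM (Gq)

theorem m_CC (hT : StTR) : StCC := by
  intro β p q r t h
  have him := h.im
  have hβ : β ≠ 0 := by
    intro h0
    exact him (by rw [h0]; rfl)
  have ht : t ≠ 0 := by
    intro h0
    have h1 := h.real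
    rw [h0] at h1
    have h2 : (r : ℝ) = 0 := by linarith [h1]
    have h3 : r = 0 := by exact_mod_cast h2
    exact h.irr 0 (by rw [h3]; ring)
  have hinv : (β⁻¹).im ≠ 0 := by
    rw [Complex.inv_im]
    have : Complex.normSq β ≠ 0 := by
      rw [Ne, Complex.normSq_eq_zero]; exact hβ
    intro h0
    rw [div_eq_zero_iff] at h0
    rcases h0 with h0 | h0
    · exact him (by linarith)
    · exact this h0
  set e : ℝ := ((β⁻¹).re - t⁻¹) / (β⁻¹).im with he
  set c : ℂ := ⟨1, e⟩ with hc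
  have hcre : c.re = 1 := rfl
  have hcim : c.im = e := rfl
  have hc0 : c ≠ 0 := by
    intro h0
    rw [h0] at hcre
    simp at hcre
  have hcb : (c * β⁻¹).re = t⁻¹ := by
    rw [Complex.mul_re, hcre, hcim, he, div_mul_cancel₀ _ hinv]
    ring
  have hval : ∀ (j : ℤ) (x y : ℚ),
      (cj c t β j * (β ^ j * ((x : ℂ) + (y : ℂ) * β⁻¹))).re = t ^ j * ((x : ℝ) + (y : ℝ) * t⁻¹) := by
    intro j x y
    have h1 : cj c t β j * (β ^ j * ((x : ℂ) + (y : ℂ) * β⁻¹)) =
        ((t ^ j : ℝ) : ℂ) * ((x : ℝ) * c + ((y : ℝ) : ℂ) * (c * β⁻¹)) := by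
      unfold cj
      rw [div_zpow]
      have h2 : β ^ j ≠ 0 := zpow_ne_zero _ hβ
      push_cast
      field_simp
    rw [h1, Complex.re_ofReal_mul, Complex.add_re, Complex.re_ofReal_mul, Complex.re_ofReal_mul,
      hcre, hcb]
    ring
  have hsame : ∀ (j k : ℤ) (u : ℂ), Gq β j u → Gq β k u →
      (cj c t β j * u).re = (cj c t β k * u).re := by
    intro j k u hj hk
    obtain ⟨x, y, hxy⟩ := hj
    obtain ⟨x', y', hxy'⟩ := hk
    have h1 := hT β p q r t h j k x y x' y' (hxy.symm.trans hxy')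
    conv_lhs => rw [hxy, hval j x y]
    conv_rhs => rw [hxy', hval k x' y']
    exact h1
  have h10 : (cj c t β 1).re = 1 := by
    have h1 : Gq β 0 1 := ⟨1, 0, by simp⟩
    have h2 : Gq β 1 1 := ⟨0, 1, by simp [hβ]⟩
    have h3 := hsame 1 0 1 h2 h1
    rw [mul_one, mul_one] at h3
    rw [h3]
    simp [cj, hcre]
  refine ⟨c, hcre, h10, ?_, ?_⟩
  · intro h0
    unfold cj at h0
    rw [zpow_one] at h0
    have h1 : (t : ℂ) / β = 1 := by
      have h2 : c * ((t : ℂ) / β) = c * 1 := by rw [h0, mul_one]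
      exact mul_left_cancel₀ hc0 h2
    rw [div_eq_one_iff_eq hβ] at h1
    apply him
    rw [← h1]
    simp
  · intro j k u hj hk
    rw [sub_mul, Complex.sub_re, hsame j k u hj hk, sub_self]

end Pool.Agent.Helper27.UN
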