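import Pool.Agent.Helper71.UN.StD

/-!
# Project UN, module EEE (triangles)
-/

set_option autoImplicit false

open Set Filter Topology Matrix
open scoped ContDiff ComplexConjugate

noncomputable section

namespace Pool.Agent.Helper27.UN

open Pool.Agent.Helper71.UN
open Pool.Agent.Helper54.TRI (Sx ez FF UU inv4 sU StFF)

/-- Projection family of a unit vector `v` supported where the state `w` is `q`. -/
private def mm {n : ℕ} (p q : Fin 4) (w : Fin n → Fin 4) (v : Fin n → ℝ) : Fm n := fun l =>
  Matrix.of fun x y => ((if l = p then 1 else 0) - (if l = q then 1 else 0)) * (v x * v y) +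
    (if x = y ∧ w x = l then 1 else 0)

private theorem mm_ok {n : ℕ} (al : Fin 4 → Fin n → Bool) (p q : Fin 4) (w : Fin n → Fin 4)
    (v : Fin n → ℝ) (hpq : p ≠ q) (hv : ∑ x, v x * v x = 1) (hw : ∀ x, v x ≠ 0 → w x = q)
    (hal : ∀ x, al (w x) x = true) (hp : ∀ x, v x ≠ 0 → al p x = true) :
    OKm al (mm p q w v) := by
  classical
  refine ⟨?_, ?_, ?_, ?_⟩
  · intro l
    ext x y
    simp only [mm, Matrix.transpose_apply, Matrix.of_apply]
    congr 1
    · ring
    · by_cases hxy : x = y
      · subst hxy; rfl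
      · rw [if_neg (fun h => hxy h.1.symm), if_neg (fun h => hxy h.1)]
  · intro l
    ext x y
    rw [Matrix.mul_apply]
    simp only [mm, Matrix.of_apply]
    set α : ℝ := (if l = p then 1 else 0) - (if l = q then 1 else 0) with hα
    have h1 : ∀ z, (α * (v x * v z) + (if x = z ∧ w x = l then (1:ℝ) else 0)) *
        (α * (v z * v y) + (if z = y ∧ w z = l then (1:ℝ) else 0)) =
        α * α * (v x * v y) * (v z * v z) +
        (if x = z then (if w x = l then α * (v z * v y) else 0) else 0) +
        (if z = y then (if w z = l then α * (v x * v z) else 0) else 0) +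
        (if x = z then (if z = y ∧ w x = l then 1 else 0) else 0) := by
      intro z
      by_cases hxz : x = z
      · subst hxz
        by_cases hxy : x = y
        · subst hxy
          by_cases hwl : w x = l
          · simp only [hwl, and_self, if_true]; ring
          · simp only [hwl, and_false, if_false, if_true]; ring
        · by_cases hwl : w x = l
          · simp only [hwl, hxy, true_and, false_and, if_true, if_false]; ring
          · simp only [hwl, hxy, and_false, if_true, if_false]; ring
      · by_cases hzy : z = y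
        · subst hzy
          by_cases hwl : w z = l
          · simp only [hwl, hxz, true_and, false_and, if_true, if_false]; ring
          · simp only [hwl, hxz, and_false, false_and, if_true, if_false]; ring
        · simp only [hxz, hzy, false_and, if_false]; ring
    rw [Finset.sum_congr rfl (fun z _ => h1 z)]
    rw [Finset.sum_add_distrib, Finset.sum_add_distrib, Finset.sum_add_distrib, ← Finset.mul_sum, hv,
      Finset.sum_ite_eq, Finset.sum_ite_eq', Finset.sum_ite_eq]
    simp only [Finset.mem_univ, if_true]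
    have h2 : (if w x = l then α * (v x * v y) else 0) = (if l = q then α * (v x * v y) else 0) := by
      by_cases hvx : v x = 0
      · rw [hvx]; simp
      · rw [hw x hvx]
        by_cases hlq : l = q
        · subst hlq; simp
        · rw [if_neg hlq, if_neg (Ne.symm hlq)]
    have h3 : (if w y = l then α * (v x * v y) else 0) = (if l = q then α * (v x * v y) else 0) := by
      by_cases hvy : v y = 0
      · rw [hvy]; simp
      · rw [hw y hvy]
        by_cases hlq : l = q
        · subst hlq; simp
        · rw [if_neg hlq, if_neg (Ne.symm hlq)]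
    rw [h2, h3]
    by_cases hlq : l = q
    · have hlp : l ≠ p := by rw [hlq]; exact hpq.symm
      have hα' : α = -1 := by rw [hα, if_neg hlp, if_pos hlq]; ring
      rw [if_pos hlq, hα']; ring
    · rw [if_neg hlq]
      by_cases hlp : l = p
      · have hα' : α = 1 := by rw [hα, if_pos hlp, if_neg hlq]; ring
        rw [hα']; ring
      · have hα' : α = 0 := by rw [hα, if_neg hlp, if_neg hlq]; ring
        rw [hα']; ring
  · ext x y
    rw [Matrix.sum_apply]
    simp only [mm, Matrix.of_apply]
    rw [Finset.sum_add_distrib, ← Finset.sum_mul, Finset.sum_sub_distrib]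
    simp only [Finset.sum_ite_eq', Finset.mem_univ, if_true, sub_self, zero_mul, zero_add,
      Matrix.one_apply]
    by_cases hxy : x = y
    · simp [hxy]
    · simp [hxy]
  · intro l x y hne
    simp only [mm, Matrix.of_apply] at hne
    by_cases hxy : x = y ∧ w x = l
    · obtain ⟨h1, h2⟩ := hxy
      subst h1
      rw [← h2]
      exact ⟨hal x, hal x⟩
    · rw [if_neg hxy, add_zero] at hne
      have hα := left_ne_zero_of_mul hne
      have hvv := right_ne_zero_of_mul hne
      have hvx := left_ne_zero_of_mul hvv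
      have hvy := right_ne_zero_of_mul hvv
      by_cases hlp : l = p
      · rw [hlp]
        exact ⟨hp x hvx, hp y hvy⟩
      · by_cases hlq : l = q
        · have hx := hal x
          have hy := hal y
          rw [hw x hvx, ← hlq] at hx
          rw [hw y hvy, ← hlq] at hy
          exact ⟨hx, hy⟩
        · rw [if_neg hlp, if_neg hlq] at hα
          exact absurd (sub_self _) hα

private theorem mm_rt (h6 : StROT) {n : ℕ} (u : Fin n → Fin 4) (a b : Fin n) (g θ : ℝ)
    (w : Fin n → Fin 4) (v : Fin n → ℝ) (ε : ℝ) (hab : a ≠ b) (hg : g * g = 1) (hε : ε * ε = 1)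
    (hu : u a ≠ u b)
    (hw : ∀ x, w x = if x = a then u b else u x)
    (hv : ∀ x, v x = ε * (if x = a then Real.cos θ else if x = b then g * Real.sin θ else 0)) :
    mm (u a) (u b) w v = fr (rt a b g θ) u := by
  obtain ⟨-, -, -, -, -, -, h7⟩ := h6 n u a b g hab hg
  have hcs := Real.sin_sq_add_cos_sq θ
  have hwa : w a = u b := by rw [hw, if_pos rfl]
  have hwb : w b = u b := by rw [hw, if_neg hab.symm]
  have hva : v a = ε * Real.cos θ := by rw [hv, if_pos rfl]
  have hvb : v b = ε * (g * Real.sin θ) := by rw [hv, if_neg hab.symm, if_pos rfl]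
  have hv0 : ∀ x, x ≠ a → x ≠ b → v x = 0 := by
    intro x h1 h2
    rw [hv, if_neg h1, if_neg h2, mul_zero]
  have hw0 : ∀ x, x ≠ a → w x = u x := fun x h1 => by rw [hw, if_neg h1]
  funext l
  obtain ⟨haa, hbb, hab', hba', hoth⟩ := h7 θ l
  ext x y
  simp only [mm, Matrix.of_apply]
  have hcase : (l = u a ∧ l ≠ u b) ∨ (l ≠ u a ∧ l = u b) ∨ (l ≠ u a ∧ l ≠ u b) := by
    by_cases h1 : l = u a
    · left; exact ⟨h1, by rw [h1]; exact hu⟩
    · by_cases h2 : l = u b
      · right; left; exact ⟨h1, h2⟩
      · right; right; exact ⟨h1, h2⟩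
  by_cases hxa : x = a
  · by_cases hya : y = a
    · rw [hxa, hya, haa, hva, hwa]
      rcases hcase with ⟨h1, h2⟩ | ⟨h1, h2⟩ | ⟨h1, h2⟩
      · simp only [h1, hu, hu.symm, if_true, if_false, true_and]
        linear_combination (Real.cos θ ^ 2) * hε
      · simp only [h2, hu, hu.symm, if_true, if_false, true_and]
        linear_combination (-Real.cos θ ^ 2) * hε - hcs
      · simp only [h1, h2, Ne.symm h1, Ne.symm h2, if_false, true_and]
        ring
    · by_cases hyb : y = b
      · have hz0 : (if a = b ∧ w a = l then (1 : ℝ) else 0) = 0 := if_neg (fun h => hab h.1)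
        rw [hxa, hyb, hab', hva, hvb, hz0]
        rcases hcase with ⟨h1, h2⟩ | ⟨h1, h2⟩ | ⟨h1, h2⟩
        · simp only [h1, hu, hu.symm, if_true, if_false]
          linear_combination (g * Real.cos θ * Real.sin θ) * hε
        · simp only [h2, hu, hu.symm, if_true, if_false]
          linear_combination (-(g * Real.cos θ * Real.sin θ)) * hε
        · simp only [h1, h2, Ne.symm h1, Ne.symm h2, if_false]
          ring
      · rw [(hoth y x hya hyb).2, hv0 y hya hyb, mul_zero, mul_zero, zero_add]
        have h1 : x ≠ y := by rw [hxa]; exact Ne.symm hya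
        have hz0 : (if x = y ∧ w x = l then (1 : ℝ) else 0) = 0 := if_neg (fun h => h1 h.1)
        rw [hz0, if_neg (fun h => h1 h.1.symm)]
  · by_cases hxb : x = b
    · by_cases hya : y = a
      · have hz0 : (if b = a ∧ w b = l then (1 : ℝ) else 0) = 0 := if_neg (fun h => hab h.1.symm)
        rw [hxb, hya, hba', hva, hvb, hz0]
        rcases hcase with ⟨h1, h2⟩ | ⟨h1, h2⟩ | ⟨h1, h2⟩
        · simp only [h1, hu, hu.symm, if_true, if_false]
          linear_combination (g * Real.cos θ * Real.sin θ) * hε
        · simp only [h2, hu, hu.symm, if_true, if_false]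
          linear_combination (-(g * Real.cos θ * Real.sin θ)) * hε
        · simp only [h1, h2, Ne.symm h1, Ne.symm h2, if_false]
          ring
      · by_cases hyb : y = b
        · rw [hxb, hyb, hbb, hvb, hwb]
          rcases hcase with ⟨h1, h2⟩ | ⟨h1, h2⟩ | ⟨h1, h2⟩
          · simp only [h1, hu, hu.symm, if_true, if_false, true_and]
            linear_combination (g * g * Real.sin θ ^ 2) * hε + (Real.sin θ ^ 2) * hg
          · simp only [h2, hu, hu.symm, if_true, if_false, true_and]
            linear_combination (-(g * g * Real.sin θ ^ 2)) * hε - (Real.sin θ ^ 2) * hg - hcs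
          · simp only [h1, h2, Ne.symm h1, Ne.symm h2, if_false, true_and]
            ring
        · rw [(hoth y x hya hyb).2, hv0 y hya hyb, mul_zero, mul_zero, zero_add]
          have h1 : x ≠ y := by rw [hxb]; exact Ne.symm hyb
          have hz0 : (if x = y ∧ w x = l then (1 : ℝ) else 0) = 0 := if_neg (fun h => h1 h.1)
          rw [hz0, if_neg (fun h => h1 h.1.symm)]
    · rw [(hoth x y hxa hxb).1, hv0 x hxa hxb, zero_mul, mul_zero, zero_add, hw0 x hxa]

theorem hEEE (h1 : StFF) (h2 : StSTP) (h3 : StLWA) (h4 : StCVX) (h5 : StFRO) (h6 : StROT)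
    (h7 : StEPP) : StEEE := by
  intro n al u a b c e f hab hbc hac hubc hne hself halb halc hala he hf
  obtain ⟨hsm, hpos, hz, ho, -, -, -, -, -, -, -, -, -, -⟩ := h2
  obtain ⟨hFs, hFq, hFv, -⟩ := h1
  have hsab_a : sw u a b a = u b := by simp [sw]
  have hsab_b : sw u a b b = u a := by simp [sw]
  have hsab_o : ∀ x, x ≠ a → x ≠ b → sw u a b x = u x := by
    intro x h1 h2
    simp only [sw, Equiv.swap_apply_of_ne_of_ne h1 h2]
  have hsab_c : sw u a b c = u b := by rw [hsab_o c hac.symm hbc.symm, hubc]
  refine ⟨?_, ?_⟩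
  · funext x
    change sw u a b (Equiv.swap b c x) = u (Equiv.swap a c x)
    by_cases hxb : x = b
    · rw [hxb, Equiv.swap_apply_left, hsab_c, Equiv.swap_apply_of_ne_of_ne hab.symm hbc]
    · by_cases hxc : x = c
      · rw [hxc, Equiv.swap_apply_right, hsab_b, Equiv.swap_apply_right]
      · rw [Equiv.swap_apply_of_ne_of_ne hxb hxc]
        by_cases hxa : x = a
        · rw [hxa, hsab_a, Equiv.swap_apply_left, hubc]
        · rw [hsab_o x hxa hxb, Equiv.swap_apply_of_ne_of_ne hxa hxc]
  -- the state with the label `u b` on the three copies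
  set w : Fin n → Fin 4 := fun x => if x = a then u b else u x with hwdef
  set v : (Fin 3 → ℝ) → Fin n → ℝ := fun z x =>
    if x = a then FF z 0 else if x = b then e * FF z 1 else if x = c then e * f * FF z 2 else 0
    with hvdef
  set m : (Fin 3 → ℝ) → Fm n := fun z => mm (u a) (u b) w (v z) with hmdef
  have hva : ∀ z, v z a = FF z 0 := fun z => by simp [hvdef]
  have hvb : ∀ z, v z b = e * FF z 1 := fun z => by simp [hvdef, hab.symm]
  have hvc : ∀ z, v z c = e * f * FF z 2 := fun z => by simp [hvdef, hac.symm, hbc.symm]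
  have hvo : ∀ z x, x ≠ a → x ≠ b → x ≠ c → v z x = 0 := fun z x h1 h2 h3 => by
    simp [hvdef, h1, h2, h3]
  have hvne : ∀ z x, v z x ≠ 0 → x = a ∨ x = b ∨ x = c := by
    intro z x hx
    by_contra hcon
    push Not at hcon
    exact hx (hvo z x hcon.1 hcon.2.1 hcon.2.2)
  have hokm : ∀ z ∈ Sx, OKm al (m z) := by
    intro z hz'
    refine mm_ok al _ _ _ _ hne ?_ ?_ ?_ ?_
    · have hs : ∑ x, v z x * v z x = ∑ x ∈ ({a, b, c} : Finset (Fin n)), v z x * v z x := by
        symm
        apply Finset.sum_subset (Finset.subset_univ _)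
        intro x _ hx
        simp only [Finset.mem_insert, Finset.mem_singleton, not_or] at hx
        rw [hvo z x hx.1 hx.2.1 hx.2.2, mul_zero]
      rw [hs, Finset.sum_insert (by simp [hab, hac]), Finset.sum_insert (by simp [hbc]),
        Finset.sum_singleton, hva, hvb, hvc]
      have h := hFq z hz'
      rw [Fin.sum_univ_three] at h
      linear_combination h + (FF z 1 ^ 2 + FF z 2 ^ 2 * (f * f)) * he + (FF z 2 ^ 2) * hf
    · intro x hx
      rcases hvne z x hx with h | h | h
      · simp [hwdef, h]
      · rw [h]; simp [hwdef, hab.symm]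
      · rw [h]; simp [hwdef, hac.symm, hubc]
    · intro x
      by_cases hxa : x = a
      · simp only [hwdef, hxa, if_true]; exact hala
      · simp only [hwdef, hxa, if_false]; exact hself x
    · intro x hx
      rcases hvne z x hx with h | h | h
      · rw [h]; exact hself a
      · rw [h]; exact halb
      · rw [h]; exact halc
  have hFs' : ∀ i : Fin 3, ContDiffOn ℝ ∞ (fun z => FF z i) Sx := by
    intro i z hz'
    exact (contDiffAt_pi.mp (hFs z hz') i).contDiffWithinAt
  have hvs : ∀ x, ContDiffOn ℝ ∞ (fun z => v z x) Sx := by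
    intro x
    by_cases hxa : x = a
    · simp only [hvdef, hxa, if_true]
      exact hFs' 0
    · by_cases hxb : x = b
      · simp only [hvdef, hxb, hab.symm, if_true, if_false]
        exact contDiffOn_const.mul (hFs' 1)
      · by_cases hxc : x = c
        · simp only [hvdef, hxc, hac.symm, hbc.symm, if_true, if_false]
          exact contDiffOn_const.mul (hFs' 2)
        · simp only [hvdef, hxa, hxb, hxc, if_false]
          exact contDiffOn_const
  have hms : ∀ l x y, ContDiffOn ℝ ∞ (fun z => m z l x y) Sx := by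
    intro l x y
    simp only [hmdef, mm, Matrix.of_apply]
    exact (contDiffOn_const.mul ((hvs x).mul (hvs y))).add contDiffOn_const
  have hconv : Convex ℝ Sx := by
    intro x hx y hy s t hs ht hst
    refine ⟨fun i => ?_, ?_⟩
    · simp only [Pi.add_apply, Pi.smul_apply, smul_eq_mul]
      have := hx.1 i
      have := hy.1 i
      positivity
    · simp only [Pi.add_apply, Pi.smul_apply, smul_eq_mul]
      rw [Finset.sum_add_distrib, ← Finset.mul_sum, ← Finset.mul_sum, hx.2, hy.2]
      linarith
  -- the two paths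
  set p : ℝ → Fin 3 → ℝ := fun s => ![1 - stp (2 * s), stp (2 * s) - stp (2 * s - 1), stp (2 * s - 1)]
    with hpdef
  set q : ℝ → Fin 3 → ℝ := fun s => ![1 - stp s, 0, stp s] with hqdef
  have hs2 : ContDiff ℝ ∞ fun s : ℝ => stp (2 * s) := hsm.comp (contDiff_const.mul contDiff_id)
  have hs3 : ContDiff ℝ ∞ fun s : ℝ => stp (2 * s - 1) :=
    hsm.comp ((contDiff_const.mul contDiff_id).sub contDiff_const)
  have hp : ContDiff ℝ ∞ p := by
    rw [contDiff_pi]
    intro i
    fin_cases i
    · exact contDiff_const.sub hs2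
    · exact hs2.sub hs3
    · exact hs3
  have hq : ContDiff ℝ ∞ q := by
    rw [contDiff_pi]
    intro i
    fin_cases i
    · exact contDiff_const.sub hsm
    · exact contDiff_const
    · exact hsm
  have hp1 : ∀ s, s ≤ 1 / 2 → p s = ez 0 (stp (2 * s)) := by
    intro s hs
    have h0 : stp (2 * s - 1) = 0 := hz _ (by linarith)
    funext i
    fin_cases i <;> simp [hpdef, ez, h0]
  have hp2 : ∀ s, 1 / 2 ≤ s → p s = ez 1 (stp (2 * s - 1)) := by
    intro s hs
    have h0 : stp (2 * s) = 1 := ho _ (by linarith)
    funext i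
    fin_cases i <;> simp [hpdef, ez, h0]
  have hq1 : ∀ s, q s = ez 2 (1 - stp s) := by
    intro s
    funext i
    fin_cases i <;> simp [hqdef, ez]
  have hez : ∀ (i : Fin 3) (t : ℝ), 0 ≤ t → t ≤ 1 → ez i t ∈ Sx := by
    intro i t h0 h1
    refine ⟨fun j => ?_, ?_⟩
    · unfold ez
      split_ifs
      · linarith
      · exact h0
      · exact le_refl _
    · rw [Fin.sum_univ_three]
      fin_cases i <;> simp [ez]
  have hpS : ∀ s, p s ∈ Sx := by
    intro s
    rcases le_total s (1 / 2) with hs | hs
    · rw [hp1 s hs]; exact hez _ _ (hpos _).1 (hpos _).2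
    · rw [hp2 s hs]; exact hez _ _ (hpos _).1 (hpos _).2
  have hqS : ∀ s, q s ∈ Sx := by
    intro s
    rw [hq1 s]
    have := hpos s
    exact hez _ _ (by linarith) (by linarith)
  -- values on the three sides
  have hm0 : ∀ t, 0 ≤ t → t ≤ 1 → m (ez 0 t) = fr (rt a b e (Real.pi / 2 * t)) u := by
    intro t h0 h1
    obtain ⟨hA, hB, hC⟩ := hFv 0 t h0 h1
    rw [zero_add] at hB hC
    refine mm_rt h6 u a b e _ w _ 1 hab he (by norm_num) hne (fun x => rfl) ?_
    intro x
    by_cases hxa : x = a
    · rw [hxa, hva, if_pos rfl, hA, one_mul]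
    · by_cases hxb : x = b
      · rw [hxb, hvb, if_neg hab.symm, if_pos rfl, hB, one_mul]
      · rw [if_neg hxa, if_neg hxb, mul_zero]
        by_cases hxc : x = c
        · rw [hxc, hvc, hC, mul_zero]
        · exact hvo _ x hxa hxb hxc
  have hm1 : ∀ t, 0 ≤ t → t ≤ 1 → m (ez 1 t) = fr (rt b c f (Real.pi / 2 * t)) (sw u a b) := by
    intro t h0 h1
    obtain ⟨hA, hB, hC⟩ := hFv 1 t h0 h1
    have e1 : (1 : Fin 3) + 1 = 2 := rfl
    have e2 : (1 : Fin 3) + 2 = 0 := rfl
    rw [e1] at hB
    rw [e2] at hC
    have hkey := mm_rt h6 (sw u a b) b c f (Real.pi / 2 * t) w (v (ez 1 t)) e hbc hf he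
      (by rw [hsab_b, hsab_c]; exact hne) ?_ ?_
    · rw [hsab_b, hsab_c] at hkey
      exact hkey
    · intro x
      by_cases hxb : x = b
      · rw [hxb, if_pos rfl, hsab_c]
        simp [hwdef, hab.symm]
      · rw [if_neg hxb]
        by_cases hxa : x = a
        · rw [hxa, hsab_a]; simp [hwdef]
        · rw [hsab_o x hxa hxb]; simp [hwdef, hxa]
    · intro x
      by_cases hxb : x = b
      · rw [hxb, hvb, if_pos rfl, hA]
      · rw [if_neg hxb]
        by_cases hxc : x = c
        · rw [hxc, hvc, if_pos rfl, hB]; ring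
        · rw [if_neg hxc, mul_zero]
          by_cases hxa : x = a
          · rw [hxa, hva, hC]
          · exact hvo _ x hxa hxb hxc
  have hef : e * f * (e * f) = 1 := by linear_combination (f * f) * he + hf
  have hm2 : ∀ t, 0 ≤ t → t ≤ 1 → m (ez 2 (1 - t)) = fr (rt a c (e * f) (Real.pi / 2 * t)) u := by
    intro t h0 h1
    obtain ⟨hA, hB, hC⟩ := hFv 2 (1 - t) (by linarith) (by linarith)
    have e1 : (2 : Fin 3) + 1 = 0 := rfl
    have e2 : (2 : Fin 3) + 2 = 1 := rfl
    rw [e1] at hB
    rw [e2] at hC
    have e3 : Real.pi / 2 * (1 - t) = Real.pi / 2 - Real.pi / 2 * t := by ring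
    rw [e3, Real.cos_pi_div_two_sub] at hA
    rw [e3, Real.sin_pi_div_two_sub] at hB
    have hkey := mm_rt h6 u a c (e * f) (Real.pi / 2 * t) w (v (ez 2 (1 - t))) 1 hac hef
      (by norm_num) (by rw [← hubc]; exact hne) ?_ ?_
    · rw [← hubc] at hkey
      exact hkey
    · intro x
      rw [← hubc]
    · intro x
      by_cases hxa : x = a
      · rw [hxa, hva, if_pos rfl, hB, one_mul]
      · by_cases hxc : x = c
        · rw [hxc, hvc, if_neg hac.symm, if_pos rfl, hA, one_mul]
        · rw [if_neg hxa, if_neg hxc, mul_zero]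
          by_cases hxb : x = b
          · rw [hxb, hvb, hC, mul_zero]
          · exact hvo _ x hxa hxb hxc
  have hrot0 : ∀ x y g, x ≠ y → g * g = 1 → fr (rt x y g 0) u = pu u := by
    intro x y g hxy hg
    rw [(h6 n u x y g hxy hg).2.1, (h5 n al 1 u).2.2]
  have hrot1 : fr (rt a c (e * f) (Real.pi / 2)) u = pu (sw u a c) := by
    have h := (h6 n u a c (e * f) hac hef).2.2.1 1
    rw [one_mul] at h
    rw [h, (h5 n al 1 _).2.2]
  have hz0 : m (ez 0 0) = pu u := by
    rw [hm0 0 le_rfl zero_le_one, mul_zero]
    exact hrot0 a b e hab he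
  have hz1 : m (ez 2 0) = pu (sw u a c) := by
    have h := hm2 1 zero_le_one le_rfl
    rw [sub_self, mul_one] at h
    rw [h, hrot1]
  have hH := h4 n al 3 Sx m hconv hms hokm p q (ez 0 0) (ez 2 0) hp hq hpS hqS
    (fun s hs => by rw [hp1 s (by linarith), hz _ (by linarith)])
    (fun s hs => by
      rw [hp2 s (by linarith), ho _ (by linarith)]
      funext i
      fin_cases i <;> simp [ez])
    (fun s hs => by
      rw [hq1 s, hz _ hs]
      funext i
      fin_cases i <;> simp [ez])
    (fun s hs => by rw [hq1 s, ho _ hs, sub_self])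
  rw [hz0, hz1] at hH
  have hadm1 : Adm al u a b := ⟨hab, hself, halb, hala⟩
  have hadm2 : Adm al (sw u a b) b c := by
    refine ⟨hbc, ?_, ?_, ?_⟩
    · intro x
      by_cases hxa : x = a
      · rw [hxa, hsab_a]; exact hala
      · by_cases hxb : x = b
        · rw [hxb, hsab_b]; exact halb
        · rw [hsab_o x hxa hxb]; exact hself x
    · rw [hsab_b]; exact halc
    · rw [hsab_c]; exact hself b
  have hep1 := (h7 n al u a b e hadm1 he).1
  have hep2 := (h7 n al (sw u a b) b c f hadm2 hf).1
  obtain ⟨-, -, -, -, hmu, -, -⟩ := h3 n al (pu u) (pu (sw u a b)) (pu (sw (sw u a b) b c))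
    (ep u a b e) (ep u a b e) (ep u a b e) (ep (sw u a b) b c f) (ep (sw u a b) b c f)
  obtain ⟨-, hmu1, hmu2⟩ := hmu hep1 hep2
  have hA : (fun s => m (p s)) = mu (pu (sw u a b)) (ep u a b e) (ep (sw u a b) b c f) := by
    funext s
    rcases le_total s (1 / 2) with hs | hs
    · rw [hmu1 s hs, hp1 s hs, hm0 _ (hpos _).1 (hpos _).2]
      rfl
    · rw [hmu2 s hs, hp2 s hs, hm1 _ (hpos _).1 (hpos _).2]
      rfl
  have hB : (fun s => m (q s)) = ep u a c (e * f) := by
    funext s
    rw [hq1 s, hm2 _ (hpos _).1 (hpos _).2]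
    rfl
  rw [hA, hB] at hH
  exact hH

end Pool.Agent.Helper27.UN
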