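import Pool.Agent.Helper56.UN.St

/-!
# Project UN, module FR
-/

set_option autoImplicit false

open Set Filter Topology
open scoped ComplexConjugate

noncomputable section

namespace Pool.Agent.Helper27.UN

open Pool.Agent.Helper56.UN Pool.Agent.Helper71.UN
open Pool.Agent.Helper56.FM (Gq)

private theorem far (hd : StDN) (w c u : ℂ) (hw : 1 < ‖w‖) (him : ∀ n : ℕ, n ≠ 0 → (w ^ n).im ≠ 0)
    (hc : c ≠ 0) (hu : ‖u‖ = 1) (ρ : ℝ) (hρ : 0 < ρ) (M : ℝ) :
    ∃ n : ℕ, M < ‖c * w ^ n‖ ∧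
      ‖c * w ^ n - (‖c * w ^ n‖ : ℂ) * u‖ ≤ ρ * ‖c * w ^ n‖ := by
  set R : ℝ := ‖w‖ with hR
  have hR0 : 0 < R := by linarith
  have hRc : (R : ℂ) ≠ 0 := by exact_mod_cast hR0.ne'
  have hcn : 0 < ‖c‖ := norm_pos_iff.mpr hc
  have hcnc : (‖c‖ : ℂ) ≠ 0 := by exact_mod_cast hcn.ne'
  have hz1 : ‖w / (R : ℂ)‖ = 1 := by
    rw [norm_div, Complex.norm_real, Real.norm_eq_abs, abs_of_pos hR0, ← hR, div_self hR0.ne']
  have hz2 : ∀ n : ℕ, n ≠ 0 → (w / (R : ℂ)) ^ n ≠ 1 := by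
    intro n hn h1
    rw [div_pow, div_eq_one_iff_eq (pow_ne_zero _ hRc)] at h1
    apply him n hn
    rw [h1, ← Complex.ofReal_pow, Complex.ofReal_im]
  have hu' : ‖((‖c‖ : ℂ) / c) * u‖ = 1 := by
    rw [norm_mul, norm_div, Complex.norm_real, norm_norm, div_self hcn.ne', hu, one_mul]
  obtain ⟨N, hN⟩ := pow_unbounded_of_one_lt (M / ‖c‖) hw
  obtain ⟨n, hn, hlt⟩ := hd (w / (R : ℂ)) hz1 hz2 _ hu' ρ hρ N
  have hpow : R ^ N ≤ R ^ n := pow_le_pow_right₀ hw.le hn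
  have hnorm : ‖c * w ^ n‖ = ‖c‖ * R ^ n := by rw [norm_mul, norm_pow]
  refine ⟨n, ?_, ?_⟩
  · rw [hnorm]
    rw [div_lt_iff₀ hcn] at hN
    nlinarith [mul_le_mul_of_nonneg_left hpow hcn.le]
  · have h1 : c * w ^ n - (‖c * w ^ n‖ : ℂ) * u =
        c * (R : ℂ) ^ n * ((w / (R : ℂ)) ^ n - ((‖c‖ : ℂ) / c) * u) := by
      rw [hnorm, div_pow]
      push_cast
      field_simp
    rw [h1, norm_mul, norm_mul, norm_pow, Complex.norm_real, Real.norm_eq_abs, abs_of_pos hR0,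
      hnorm, mul_comm ρ]
    exact mul_le_mul_of_nonneg_left hlt.le (by positivity)

theorem m_FR (hm : StMD) (he : StRE) (hd : StDN) : StFR := by
  intro β p q r t h c u hc hu ρ hρ M
  obtain ⟨ht, hne⟩ := hm β p q r t h
  have hβ : β ≠ 0 := by
    intro h0
    exact h.im (by rw [h0]; rfl)
  have hbn : 0 < ‖β‖ := norm_pos_iff.mpr hβ
  have htn : 0 < |t| := abs_pos.mpr ht
  have htc : (t : ℂ) ≠ 0 := by exact_mod_cast ht
  rcases lt_or_gt_of_ne hne with hlt | hlt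
  · have hw : 1 < ‖(t : ℂ) / β‖ := by
      rw [norm_div, Complex.norm_real, Real.norm_eq_abs, one_lt_div hbn]
      exact hlt
    have him : ∀ n : ℕ, n ≠ 0 → (((t : ℂ) / β) ^ n).im ≠ 0 := by
      intro n hn h0
      have h1 := he β p q r t h n hn
      rw [div_pow, div_eq_mul_inv, ← Complex.ofReal_pow, Complex.im_ofReal_mul, Complex.inv_im] at h0
      have h2 : Complex.normSq (β ^ n) ≠ 0 := by
        rw [Ne, Complex.normSq_eq_zero]; exact pow_ne_zero _ hβ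
      rcases mul_eq_zero.mp h0 with h3 | h3
      · exact pow_ne_zero n ht h3
      · rcases div_eq_zero_iff.mp h3 with h4 | h4
        · exact h1 (by linarith)
        · exact h2 h4
    obtain ⟨n, h1, h2⟩ := far hd _ c u hw him hc hu ρ hρ M
    refine ⟨(n : ℤ), ?_, ?_⟩
    · unfold cj
      rw [zpow_natCast]
      exact h1
    · unfold cj
      rw [zpow_natCast]
      exact h2
  · have hw : 1 < ‖β / (t : ℂ)‖ := by
      rw [norm_div, Complex.norm_real, Real.norm_eq_abs, one_lt_div htn]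
      exact hlt
    have him : ∀ n : ℕ, n ≠ 0 → ((β / (t : ℂ)) ^ n).im ≠ 0 := by
      intro n hn h0
      have h1 := he β p q r t h n hn
      rw [div_pow, ← Complex.ofReal_pow, Complex.div_ofReal_im] at h0
      rcases div_eq_zero_iff.mp h0 with h4 | h4
      · exact h1 h4
      · exact pow_ne_zero n ht h4
    obtain ⟨n, h1, h2⟩ := far hd _ c u hw him hc hu ρ hρ M
    have hk : cj c t β (-(n : ℤ)) = c * (β / (t : ℂ)) ^ n := by
      unfold cj
      rw [zpow_neg, zpow_natCast, ← inv_pow, inv_div]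
    refine ⟨-(n : ℤ), ?_, ?_⟩
    · rw [hk]
      exact h1
    · rw [hk]
      exact h2

end Pool.Agent.Helper27.UN
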